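import Pool.Agent.helper62.RP.Spec

set_option autoImplicit false

/-!
# Row rp:DIA (MP_07c750): the diagonal sequence
-/

open Polynomial Filter
open Pool.Agent.QU

namespace Pool.Agent.RP

/-- elements with rational coefficients -/
noncomputable def DIA_E {G : Type} [Group G] (l : List (G × ℚ × ℚ)) : MonoidAlgebra ℂ G :=
  (l.map fun t => MonoidAlgebra.single t.1 ((t.2.1 : ℂ) + (t.2.2 : ℂ) * Complex.I)).sum

/-- closeness -/
def DIA_near {G : Type} [Group G] (a b : MonoidAlgebra ℂ G) (δ : ℝ) : Prop :=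
  regNorm (a - b) ≤ δ ∧ ∀ (N : ℕ) (σ : G →* Equiv.Perm (Fin N)) (v : EuclideanSpace ℂ (Fin N)),
    ‖rep (permRep σ) (a - b) v‖ ≤ δ * ‖v‖

theorem DIA_near_of_sum (h1 : RNB_stmt) (h2 : REP_stmt) {G : Type} [Group G]
    (a b : MonoidAlgebra ℂ G) (δ : ℝ)
    (h : ∑ γ ∈ (a - b).coeff.support, ‖(a - b).coeff γ‖ ≤ δ) : DIA_near a b δ := by
  refine ⟨(h1 G (a - b) (a - b)).2.2.2.1.trans h, fun N σ v => ?_⟩
  exact ((h2 G _ (permRep σ) (a - b) (a - b) v v).2.2.2.2.1).trans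
    (mul_le_mul_of_nonneg_right h (norm_nonneg _))

theorem DIA_near_add (h1 : RNB_stmt) (h2 : REP_stmt) {G : Type} [Group G]
    (a b a' b' : MonoidAlgebra ℂ G) (δ δ' : ℝ) (h : DIA_near a b δ) (h' : DIA_near a' b' δ') :
    DIA_near (a + a') (b + b') (δ + δ') := by
  have e : a + a' - (b + b') = (a - b) + (a' - b') := by abel
  refine ⟨?_, fun N σ v => ?_⟩
  · rw [e]
    have := (h1 G (a - b) (a' - b')).2.2.2.2.2.2.2.2.1
    linarith [h.1, h'.1]
  · rw [e, (h2 G _ (permRep σ) (a - b) (a' - b') v v).2.1, ContinuousLinearMap.add_apply]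
    refine (norm_add_le _ _).trans ?_
    have := h.2 N σ v
    have := h'.2 N σ v
    linarith

theorem DIA_approx (h1 : RNB_stmt) (h2 : REP_stmt) {G : Type} [Group G]
    (a : MonoidAlgebra ℂ G) : ∀ δ : ℝ, 0 < δ → ∃ l, DIA_near a (DIA_E l) δ := by
  induction a using MonoidAlgebra.induction_linear with
  | zero =>
    intro δ hδ
    refine ⟨[], DIA_near_of_sum h1 h2 _ _ _ ?_⟩
    have e : (0 : MonoidAlgebra ℂ G) - DIA_E [] = 0 := by simp [DIA_E]
    rw [e]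
    simp
    exact hδ.le
  | add f g hf hg =>
    intro δ hδ
    obtain ⟨l, hl⟩ := hf (δ / 2) (by linarith)
    obtain ⟨m, hm⟩ := hg (δ / 2) (by linarith)
    refine ⟨l ++ m, ?_⟩
    have e : DIA_E (l ++ m) = DIA_E l + DIA_E m := by
      simp only [DIA_E, List.map_append, List.sum_append]
    rw [e]
    have := DIA_near_add h1 h2 _ _ _ _ _ _ hl hm
    rwa [add_halves] at this
  | single γ z =>
    intro δ hδ
    obtain ⟨p, hp1, hp2⟩ := exists_rat_btwn (show z.re - δ / 2 < z.re by linarith)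
    obtain ⟨q, hq1, hq2⟩ := exists_rat_btwn (show z.im - δ / 2 < z.im by linarith)
    refine ⟨[(γ, p, q)], DIA_near_of_sum h1 h2 _ _ _ ?_⟩
    obtain ⟨c, hc⟩ : ∃ c : ℂ, c = z - ((p : ℂ) + (q : ℂ) * Complex.I) := ⟨_, rfl⟩
    have e : (MonoidAlgebra.single γ z : MonoidAlgebra ℂ G) - DIA_E [(γ, p, q)] =
        MonoidAlgebra.single γ c := by
      simp only [DIA_E, List.map_cons, List.map_nil, List.sum_cons, List.sum_nil, add_zero]
      rw [hc, MonoidAlgebra.single_sub]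
    have hcn : ‖c‖ ≤ δ := by
      refine (Complex.norm_le_abs_re_add_abs_im c).trans ?_
      have e1 : c.re = z.re - p := by
        rw [hc]
        simp
      have e2 : c.im = z.im - q := by
        rw [hc]
        simp
      rw [e1, e2, abs_of_nonneg (by linarith), abs_of_nonneg (by linarith)]
      linarith
    rw [e]
    classical
    have hs : (MonoidAlgebra.single γ c : MonoidAlgebra ℂ G).coeff.support ⊆ {γ} := by
      rw [MonoidAlgebra.coeff_single]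
      exact Finsupp.support_single_subset
    refine (Finset.sum_le_sum_of_subset_of_nonneg hs fun _ _ _ => norm_nonneg _).trans ?_
    rw [Finset.sum_singleton, MonoidAlgebra.coeff_single, Finsupp.single_eq_same]
    exact hcn

/-- `σ` works for the first `k + 1` elements and for `a` -/
def DIA_good {G : Type} [Group G] (b : ℕ → MonoidAlgebra ℂ G) (a : MonoidAlgebra ℂ G) (ε : ℝ)
    (k N : ℕ) (σ : G →* Equiv.Perm (Fin N)) : Prop :=
  (∀ j ≤ k, ∀ v : EuclideanSpace ℂ (Fin N), ∑ i, v i = 0 →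
    ‖rep (permRep σ) (b j) v‖ ≤ (regNorm (b j) + 1 / ((k : ℝ) + 1)) * ‖v‖) ∧
  ∀ v : EuclideanSpace ℂ (Fin N), ∑ i, v i = 0 →
    ‖rep (permRep σ) a v‖ ≤ (regNorm a + ε) * ‖v‖

theorem DIA_exists {G : Type} [Group G] (hSC : SC G) (b : ℕ → MonoidAlgebra ℂ G)
    (a : MonoidAlgebra ℂ G) (ε : ℝ) (hε : 0 < ε) (k : ℕ) :
    ∃ M : ℕ, ∀ N, M ≤ N → ∃ σ, DIA_good b a ε k N σ := by
  classical
  have hk : (0 : ℝ) < 1 / ((k : ℝ) + 1) := by positivity
  obtain ⟨M, hM⟩ := eventually_atTop.1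
    (hSC (insert a ((Finset.range (k + 1)).image b)) (min (1 / ((k : ℝ) + 1)) ε) (lt_min hk hε))
  refine ⟨M, fun N hN => ?_⟩
  obtain ⟨σ, hσ⟩ := hM N hN
  refine ⟨σ, fun j hj v hv => ?_, fun v hv => ?_⟩
  · refine (hσ (b j) (Finset.mem_insert_of_mem (Finset.mem_image_of_mem b
      (Finset.mem_range.2 (by omega)))) v hv).trans ?_
    refine mul_le_mul_of_nonneg_right ?_ (norm_nonneg _)
    have := min_le_left (1 / ((k : ℝ) + 1)) ε
    linarith
  · refine (hσ a (Finset.mem_insert_self _ _) v hv).trans ?_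
    refine mul_le_mul_of_nonneg_right ?_ (norm_nonneg _)
    have := min_le_right (1 / ((k : ℝ) + 1)) ε
    linarith

theorem DIA (h1 : RNB_stmt) (h2 : REP_stmt) : DIA_stmt := by
  intro G _ _ hSC htr htr'
  classical
  obtain ⟨a, ε, hε, ha⟩ := htr
  obtain ⟨e, he⟩ := exists_surjective_nat (List (G × ℚ × ℚ))
  obtain ⟨b, hb⟩ : ∃ b : ℕ → MonoidAlgebra ℂ G, b = fun k => DIA_E (e k) := ⟨_, rfl⟩
  choose M hM using DIA_exists hSC b a ε hε
  obtain ⟨g, hg⟩ : ∃ g : ℕ → ℕ,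
      g = fun N => Nat.findGreatest (fun k => ∃ σ, DIA_good b a ε k N σ) N := ⟨_, rfl⟩
  choose τ hτ using htr'
  have hex : ∀ N, ∃ σ : G →* Equiv.Perm (Fin N),
      ((∃ σ, DIA_good b a ε (g N) N σ) → DIA_good b a ε (g N) N σ) ∧ ∀ i j, ∃ γ, σ γ i = j := by
    intro N
    by_cases h : ∃ σ, DIA_good b a ε (g N) N σ
    · obtain ⟨σ, hσ⟩ := h
      exact ⟨σ, fun _ => hσ, ha N σ hσ.2⟩
    · exact ⟨τ N, fun h' => absurd h' h, hτ N⟩
  choose σ hσ hσt using hex
  refine ⟨σ, ?_, hσt⟩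
  intro a' ε' hε'
  obtain ⟨l, hl⟩ := DIA_approx h1 h2 a' (ε' / 3) (by linarith)
  obtain ⟨k0, hk0⟩ := he l
  obtain ⟨k1, hk1⟩ := exists_nat_one_div_lt (show (0 : ℝ) < ε' / 3 by linarith)
  obtain ⟨k, hkd⟩ : ∃ k, k = max k0 k1 := ⟨_, rfl⟩
  filter_upwards [eventually_ge_atTop (max (M k) k)] with N hN
  have hN1 : M k ≤ N := (le_max_left _ _).trans hN
  have hN2 : k ≤ N := (le_max_right _ _).trans hN
  have hP : ∃ σ, DIA_good b a ε k N σ := hM k N hN1
  have hgk : k ≤ g N := by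
    rw [hg]
    exact Nat.le_findGreatest hN2 hP
  have hgP : ∃ σ, DIA_good b a ε (g N) N σ := by
    have := Nat.findGreatest_spec (P := fun k => ∃ σ, DIA_good b a ε k N σ) hN2 hP
    rw [hg]
    exact this
  have hgood := hσ N hgP
  intro v hv
  have hbk : b k0 = DIA_E l := by rw [hb]; show DIA_E (e k0) = _; rw [hk0]
  have u1 := hgood.1 k0 ((le_max_left k0 k1).trans (hkd ▸ hgk)) v hv
  rw [hbk] at u1
  have u2 : 1 / ((g N : ℝ) + 1) ≤ ε' / 3 := by
    refine le_trans ?_ hk1.le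
    have : (k1 : ℝ) ≤ g N := by
      have h3 : k1 ≤ g N := (le_max_right k0 k1).trans (hkd ▸ hgk)
      exact_mod_cast h3
    exact one_div_le_one_div_of_le (by positivity) (by linarith)
  have u3 : regNorm (DIA_E l) ≤ regNorm a' + ε' / 3 := by
    have e1 : DIA_E l = a' + (-1 : ℂ) • (a' - DIA_E l) := by
      rw [neg_smul, one_smul]
      abel
    have e2 := (h1 G a' ((-1 : ℂ) • (a' - DIA_E l))).2.2.2.2.2.2.2.2.1
    rw [← e1] at e2
    have e3 := (h1 G (a' - DIA_E l) a').2.2.2.2.2.2.2.2.2.1 (-1)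
    rw [norm_neg, norm_one, one_mul] at e3
    linarith [hl.1]
  have u4 : rep (permRep (σ N)) a' v =
      rep (permRep (σ N)) (DIA_E l) v + rep (permRep (σ N)) (a' - DIA_E l) v := by
    have e1 : a' = DIA_E l + (a' - DIA_E l) := by abel
    have e2 := (h2 G _ (permRep (σ N)) (DIA_E l) (a' - DIA_E l) v v).2.1
    rw [← e1] at e2
    rw [e2, ContinuousLinearMap.add_apply]
  rw [u4]
  refine (norm_add_le _ _).trans ?_
  have u5 := hl.2 N (σ N) v
  have hv0 : 0 ≤ ‖v‖ := norm_nonneg _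
  calc ‖rep (permRep (σ N)) (DIA_E l) v‖ + ‖rep (permRep (σ N)) (a' - DIA_E l) v‖
      ≤ (regNorm (DIA_E l) + 1 / ((g N : ℝ) + 1)) * ‖v‖ + ε' / 3 * ‖v‖ := add_le_add u1 u5
    _ = (regNorm (DIA_E l) + 1 / ((g N : ℝ) + 1) + ε' / 3) * ‖v‖ := by ring
    _ ≤ (regNorm a' + ε') * ‖v‖ := mul_le_mul_of_nonneg_right (by linarith) hv0

end Pool.Agent.RP
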