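import Pool.Agent.helper62.RP.Spec

set_option autoImplicit false

/-!
# Row rp:PEX (MP_07c750): number of permutations which extend a partial injection
-/

namespace Pool.Agent.RP

theorem PEX : PEX_stmt := by
  classical
  intro N E
  by_cases hE : ∀ e ∈ E, ∀ f ∈ E, (e.1 = f.1 ↔ e.2 = f.2)
  · rw [if_pos hE]
    let f : E → Fin N := fun e => e.1.1
    let g : E → Fin N := fun e => e.1.2
    have hf : Function.Injective f := fun a b h =>
      Subtype.ext (Prod.ext h ((hE a.1 a.2 b.1 b.2).1 h))
    have hg : Function.Injective g := fun a b h =>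
      Subtype.ext (Prod.ext ((hE a.1 a.2 b.1 b.2).2 h) h)
    let e₀ : Set.range f ≃ Set.range g :=
      (Equiv.ofInjective f hf).symm.trans (Equiv.ofInjective g hg)
    have he : ∀ a : E, (e₀ ⟨f a, ⟨a, rfl⟩⟩ : Fin N) = g a := by
      intro a
      show ((Equiv.ofInjective g hg) ((Equiv.ofInjective f hf).symm ⟨f a, ⟨a, rfl⟩⟩) : Fin N) = g a
      rw [Equiv.ofInjective_symm_apply]
      rfl
    have e1 : Fintype.card {σ : Equiv.Perm (Fin N) // ∀ x : Set.range f, σ x = e₀ x} =
        Fintype.card (((Set.range f)ᶜ : Set (Fin N)) ≃ ((Set.range g)ᶜ : Set (Fin N))) :=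
      Fintype.card_congr (Equiv.Set.compl e₀)
    have e2 : (Finset.univ.filter (fun σ : Equiv.Perm (Fin N) => ∀ e ∈ E, σ e.1 = e.2)).card =
        Fintype.card {σ : Equiv.Perm (Fin N) // ∀ x : Set.range f, σ x = e₀ x} := by
      rw [Fintype.card_subtype]
      refine congrArg Finset.card (Finset.filter_congr fun σ _ => ?_)
      constructor
      · rintro h ⟨x, ⟨a, rfl⟩⟩
        rw [he a]
        exact h a.1 a.2
      · intro h e hee
        have := h ⟨f ⟨e, hee⟩, ⟨⟨e, hee⟩, rfl⟩⟩
        rw [he ⟨e, hee⟩] at this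
        exact this
    have c1 : Fintype.card ((Set.range f)ᶜ : Set (Fin N)) = N - E.card := by
      rw [Fintype.card_compl_set, Set.card_range_of_injective hf, Fintype.card_fin,
        Fintype.card_coe]
    have c2 : Fintype.card ((Set.range g)ᶜ : Set (Fin N)) = N - E.card := by
      rw [Fintype.card_compl_set, Set.card_range_of_injective hg, Fintype.card_fin,
        Fintype.card_coe]
    rw [e2, e1, Fintype.card_equiv (Fintype.equivOfCardEq (c1.trans c2.symm)), c1]
  · rw [if_neg hE, Finset.card_eq_zero, Finset.filter_eq_empty_iff]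
    intro σ _ hσ
    apply hE
    intro e he f hf
    rw [← hσ e he, ← hσ f hf, σ.injective.eq_iff]

end Pool.Agent.RP
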